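import Mathlib
import Pool.Agent.H369Z.Pole.E
import Pool.Agent.H520Z.Sel.Assemble
import Pool.Agent.H332R2.FL.ZeroExists

set_option autoImplicit false

open Filter Topology

namespace Pool.Agent.Results.MP_995735_nt.PoleQuotient

open Pool.Agent.H369Z.Pole Pool.Agent.H520Z.Sel Pool.Agent.H949Z.Hecke Pool.Agent.H437R2

/-- `Q^s ∏ Γ(λ_j s + μ_j) F(s)` -/
noncomputable def completed (Q : ℝ) {k : ℕ} (lam : Fin k → ℝ) (μ : Fin k → ℂ) (F : ℂ → ℂ)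
    (s : ℂ) : ℂ :=
  (Q : ℂ) ^ s * (∏ j, Complex.Gamma ((lam j : ℂ) * s + μ j)) * F s

/-- `F` is a member of the Selberg class, with Dirichlet coefficients `a`. -/
structure InSelberg (a : ℕ → ℂ) (F : ℂ → ℂ) : Prop where
  series : ∀ s : ℂ, 1 < s.re → LSeriesSummable a s ∧ F s = LSeries a s
  continuation : ∃ (m : ℕ) (H : ℂ → ℂ), Differentiable ℂ H ∧
    (∃ A B : ℝ, ∀ s : ℂ, ‖H s‖ ≤ A * Real.exp (‖s‖ ^ B)) ∧
    ∀ s : ℂ, s ≠ 1 → H s = (s - 1) ^ m * F s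
  functionalEquation : ∃ (Q : ℝ) (k : ℕ) (lam : Fin k → ℝ) (μ : Fin k → ℂ) (ω : ℂ),
    0 < Q ∧ (∀ j, 0 < lam j) ∧ (∀ j, 0 ≤ (μ j).re) ∧ ‖ω‖ = 1 ∧
    ∀ s : ℂ, s ≠ 0 → s ≠ 1 → (∀ j, ∀ n : ℕ, (lam j : ℂ) * s + μ j ≠ -(n : ℂ)) →
      (∀ j, ∀ n : ℕ, (lam j : ℂ) * (1 - starRingEnd ℂ s) + μ j ≠ -(n : ℂ)) →
      completed Q lam μ F s = ω * starRingEnd ℂ (completed Q lam μ F (1 - starRingEnd ℂ s))
  ramanujan : ∀ ε : ℝ, 0 < ε → ∃ C : ℝ, ∀ n : ℕ, 1 ≤ n → ‖a n‖ ≤ C * (n : ℝ) ^ ε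
  one : a 1 = 1
  euler : ∃ (b : ℕ → ℂ) (θ C : ℝ), θ < 1 / 2 ∧ (∀ n : ℕ, ¬ IsPrimePow n → b n = 0) ∧
    (∀ n : ℕ, 1 ≤ n → ‖b n‖ ≤ C * (n : ℝ) ^ θ) ∧
    ∀ s : ℂ, 1 < s.re → LSeriesSummable b s ∧ F s = Complex.exp (LSeries b s)

/-- A member of the Selberg class with a simple pole at `1` whose quotient by `ζ` has a pole at
a non-trivial zero of `ζ`; so it is not `ζ` times an entire function. -/
theorem result : ∃ (a : ℕ → ℂ) (F : ℂ → ℂ) (r : ℕ) (ρ : ℂ), InSelberg a F ∧ 1 ≤ r ∧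
    meromorphicOrderAt F 1 = ((-(r : ℤ) : ℤ) : WithTop ℤ) ∧
    riemannZeta ρ = 0 ∧ 0 < ρ.re ∧ ρ.re < 1 ∧
    meromorphicOrderAt (fun s => F s / riemannZeta s ^ r) ρ < 0 ∧
    ¬ ∃ L : ℂ → ℂ, Differentiable ℂ L ∧ ∀ s : ℂ, s ≠ 1 → F s = riemannZeta s ^ r * L s := by
  obtain ⟨ρ, hz, h12, h1, him, -⟩ := H332.FL.exists_zero_re_ge_half 0
  have h0 : 0 < ρ.re := by linarith
  obtain ⟨lam, η, ε, x, hlam, hη, hε, hx, hxs, hFE⟩ :=
    exists_source (fun g hg => assemble g hg) ρ h12 h1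
  obtain ⟨C, hC⟩ := ec_bound hx 1 one_pos
  have hw : ((lam : ℂ) * ρ).re = lam * ρ.re := by simp
  obtain ⟨Φ, hΦ, hΦ1, hΦ2, hg, hL⟩ := source_hecke hlam hη (ec_zero x) hC (w0 := lam * ρ)
    (by rw [hw]; positivity) (by rw [hw]; nlinarith) hFE
  obtain ⟨hH, hO⟩ := HH_diff_ord (ε := ε) hlam hη h0 h1 hz hΦ hg
  have hG : ∀ s : ℂ, 1 < s.re → GG lam η ε ρ Φ s = LSeries (aC x) s := fun s hs =>
    hL s hs (aC_hasSum hx hs).LSeriesSummable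
  have hHs : ∀ s : ℂ, 1 < s.re → HH lam η ε ρ Φ s = riemannZeta₁ s * LSeries (aC x) s := by
    intro s hs
    rw [HH_eq Φ hlam h0 h1 hz (Off_of_re h0 h1 (Or.inl hs.le)), hG s hs]
  have hF : ∀ s : ℂ, 1 < s.re → FS lam η ε ρ Φ s = LSeries (AC x) s := by
    intro s hs
    have hs1 : s ≠ 1 := by
      rintro rfl
      simp at hs
    unfold FS
    rw [hHs s hs, AC_LSeries hx hs, z1_of_ne hs1]
    have := sub_ne_zero.2 hs1
    field_simp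
  obtain ⟨d0, hd0, hd⟩ := aC_lower hx hxs
  have hH1 : HH lam η ε ρ Φ 1 ≠ 0 := by
    refine HH_one_ne hH hd0 fun s hs => ?_
    rw [hHs s hs, norm_mul, mul_comm]
    exact mul_le_mul_of_nonneg_left (hd s hs) (norm_nonneg _)
  have hq := quot_order (η := η) hlam hε h0 h1 him hz hΦ
  refine ⟨AC x, FS lam η ε ρ Φ, 1, ρ, ⟨fun s hs => ⟨AC_summable hx hs, hF s hs⟩,
    ⟨1, HH lam η ε ρ Φ, hH, hO.order, fun s hs => ?_⟩,
    ⟨η ^ (-lam) * Real.pi ^ (-(1 / 2) : ℝ), 2, ![1 / 2, lam], fun _ => 0, 1,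
      mul_pos (Real.rpow_pos_of_pos hη _) (Real.rpow_pos_of_pos Real.pi_pos _), ?_,
      fun _ => le_rfl, norm_one, fun s hs0 hs1 g1 g2 => ?_⟩,
    AC_ram hx, AC_one x,
    ⟨bC x, 0, 2, by norm_num, fun n hn => bC_zero x hn, fun n _ => by simpa using bC_norm hx n,
      fun s hs => ⟨bC_summable hx hs, by rw [hF s hs, AC_exp hx hs]⟩⟩⟩, le_rfl,
    FS_order_one hH hH1, hz, h0, h1, ?_, ?_⟩
  · unfold FS
    have := sub_ne_zero.2 hs
    field_simp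
  · intro j
    fin_cases j
    · simp
    · simpa using hlam
  · have e : ∀ z : ℂ, completed (η ^ (-lam) * Real.pi ^ (-(1 / 2) : ℝ)) ![1 / 2, lam]
        (fun _ => 0) (FS lam η ε ρ Φ) z = UU lam η ε ρ Φ z := by
      intro z
      unfold completed UU FS
      rw [Fin.prod_univ_two]
      simp only [add_zero, Matrix.cons_val_zero, Matrix.cons_val_one]
    rw [e, e, one_mul]
    refine UU_symm hlam hη h0 h1 hz hH hΦ1 hΦ2 hs0 hs1 ?_ ?_ ?_ ?_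
    · simpa only [add_zero, Matrix.cons_val_zero] using g1 0
    · simpa only [add_zero, Matrix.cons_val_one, Matrix.cons_val_zero] using g1 1
    · simpa only [add_zero, Matrix.cons_val_zero] using g2 0
    · simpa only [add_zero, Matrix.cons_val_one, Matrix.cons_val_zero] using g2 1
  · rw [hq]
    exact_mod_cast (by norm_num : (-1 : ℤ) < 0)
  · rintro ⟨L, hL1, hL2⟩
    have hne : ∀ᶠ z in 𝓝[≠] ρ, z ≠ 1 := by
      refine mem_nhdsWithin_of_mem_nhds (isOpen_ne.mem_nhds ?_)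
      rintro rfl
      simp at h1
    have hev : (fun s => FS lam η ε ρ Φ s / riemannZeta s ^ 1) =ᶠ[𝓝[≠] ρ] L := by
      filter_upwards [z1_ev_ne ρ, hne] with z k2 k3
      rw [z1_of_ne k3] at k2
      have m2 := right_ne_zero_of_mul k2
      rw [hL2 z k3]
      field_simp
    have := (hL1.analyticAt ρ).meromorphicOrderAt_nonneg
    rw [← meromorphicOrderAt_congr hev, hq] at this
    exact absurd (by exact_mod_cast this : (0 : ℤ) ≤ -1) (by norm_num)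

end Pool.Agent.Results.MP_995735_nt.PoleQuotient
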